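import Mathlib

/-!
# A linear space through a zero of a determinant
-/

namespace Pool.Agent.L5helper11.DC

open MvPolynomial

section Affine

variable {σ : Type*} [Fintype σ] {S : Type*} [CommRing S]

omit [Fintype σ] in
theorem deg_le_one (d : σ →₀ ℕ) (hd : d.degree ≤ 1) : d = 0 ∨ ∃ i, d = Finsupp.single i 1 := by
  by_cases h : d = 0
  · exact Or.inl h
  · right
    obtain ⟨i, hi⟩ := Finsupp.ne_iff.1 h
    refine ⟨i, ?_⟩
    have hle : Finsupp.single i 1 ≤ d := by
      rw [Finsupp.single_le_iff]
      exact Nat.one_le_iff_ne_zero.2 hi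
    have h1 : Finsupp.single i 1 + (d - Finsupp.single i 1) = d := add_tsub_cancel_of_le hle
    have h2 : (d - Finsupp.single i 1).degree = 0 := by
      have := congrArg Finsupp.degree h1
      rw [map_add, Finsupp.degree_single] at this
      omega
    rw [Finsupp.degree_eq_zero_iff] at h2
    rw [h2, add_zero] at h1
    exact h1.symm

theorem affine_eq (a : MvPolynomial σ S) (ha : a.totalDegree ≤ 1) :
    a = C (coeff 0 a) + ∑ i, C (coeff (Finsupp.single i 1) a) * X i := by
  classical
  ext d
  rw [coeff_add, coeff_sum, coeff_C]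
  have h1 : ∀ i ∈ (Finset.univ : Finset σ), coeff d (C (coeff (Finsupp.single i 1) a) * X i) =
      if Finsupp.single i 1 = d then coeff d a else 0 := by
    intro i _
    rw [coeff_C_mul, coeff_X]
    split_ifs with h
    · rw [h, mul_one]
    · rw [mul_zero]
  rw [Finset.sum_congr rfl h1]
  by_cases hd : d.degree ≤ 1
  · rcases deg_le_one d hd with rfl | ⟨i, rfl⟩
    · rw [if_pos rfl, Finset.sum_eq_zero, add_zero]
      intro i _
      rw [if_neg]
      intro h
      have := DFunLike.congr_fun h i
      simp at this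
    · rw [if_neg, zero_add, Finset.sum_eq_single i]
      · rw [if_pos rfl]
      · intro j _ hj
        rw [if_neg]
        intro h
        exact hj (Finsupp.single_left_injective one_ne_zero h)
      · intro h
        exact absurd (Finset.mem_univ i) h
      · intro h
        have := DFunLike.congr_fun h i
        simp at this
  · rw [coeff_eq_zero_of_totalDegree_lt (lt_of_le_of_lt ha (not_le.1 hd)), if_neg,
      Finset.sum_eq_zero, add_zero]
    · intro i _
      split_ifs <;> rfl
    · rintro rfl
      simp at hd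

variable {R : Type*} [CommRing R] (φ : S →+* R)

/-- The linear part of a polynomial, as a linear form. -/
noncomputable def lin (a : MvPolynomial σ S) : (σ → R) →ₗ[R] R :=
  ∑ i, φ (coeff (Finsupp.single i 1) a) • LinearMap.proj i

theorem lin_apply (a : MvPolynomial σ S) (w : σ → R) :
    lin φ a w = ∑ i, φ (coeff (Finsupp.single i 1) a) * w i := by
  rw [lin, LinearMap.sum_apply]
  rfl

theorem eval_affine (a : MvPolynomial σ S) (ha : a.totalDegree ≤ 1) (x : σ → R) :
    eval₂ φ x a = φ (coeff 0 a) + lin φ a x := by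
  conv_lhs => rw [affine_eq a ha]
  rw [eval₂_add, eval₂_C, ← coe_eval₂Hom, map_sum, lin_apply]
  congr 1
  refine Finset.sum_congr rfl fun i _ => ?_
  rw [map_mul, coe_eval₂Hom, eval₂_C, eval₂_X]

/-- Evaluation along a line. -/
theorem eval_line (a : MvPolynomial σ S) (ha : a.totalDegree ≤ 1) (x w : σ → R) :
    eval₂ (Polynomial.C.comp φ) (fun i => Polynomial.C (x i) + Polynomial.X * Polynomial.C (w i))
      a = Polynomial.C (eval₂ φ x a) + Polynomial.X * Polynomial.C (lin φ a w) := by
  rw [eval_affine _ a ha, eval_affine φ a ha, lin_apply, lin_apply, lin_apply, map_add, map_sum,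
    map_sum, Finset.mul_sum, add_assoc, ← Finset.sum_add_distrib]
  congr 1
  refine Finset.sum_congr rfl fun i _ => ?_
  rw [RingHom.comp_apply, map_mul, map_mul]
  ring
/-- The evaluation of a determinant. -/
theorem eval_det {T : Type*} [CommRing T] (ψ : S →+* T) {n : ℕ}
    (A : Matrix (Fin n) (Fin n) (MvPolynomial σ S)) (x : σ → T) :
    eval₂ ψ x A.det = (A.map (eval₂ ψ x)).det := by
  rw [← coe_eval₂Hom, RingHom.map_det]
  rfl

/-- Through a zero of a determinant of affine forms over a domain there is a linear space of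
codimension at most `n` on which it vanishes. -/
theorem exists_space [IsDomain R] {n : ℕ} (A : Matrix (Fin n) (Fin n) (MvPolynomial σ S))
    (hA : ∀ i j, (A i j).totalDegree ≤ 1) (x : σ → R) (hx : eval₂ φ x A.det = 0) :
    ∃ L : (σ → R) →ₗ[R] (Fin n → R), ∀ w, L w = 0 →
      eval₂ (Polynomial.C.comp φ)
        (fun i => Polynomial.C (x i) + Polynomial.X * Polynomial.C (w i)) A.det = 0 := by
  rw [eval_det, ← Matrix.exists_mulVec_eq_zero_iff] at hx
  obtain ⟨v, hv, hMv⟩ := hx
  refine ⟨LinearMap.pi fun r => ∑ c, v c • lin φ (A r c), fun w hw => ?_⟩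
  rw [eval_det, ← Matrix.exists_mulVec_eq_zero_iff]
  refine ⟨fun c => Polynomial.C (v c), ?_, ?_⟩
  · intro h
    apply hv
    funext c
    have := congrFun h c
    simpa using this
  funext r
  have h1 := congrFun hMv r
  have h2 := congrFun hw r
  rw [LinearMap.pi_apply, LinearMap.sum_apply] at h2
  simp only [LinearMap.smul_apply, smul_eq_mul, Pi.zero_apply] at h2
  simp only [Matrix.mulVec, dotProduct, Matrix.map_apply, Pi.zero_apply] at h1 ⊢
  have h3 : ∀ c ∈ (Finset.univ : Finset (Fin n)), eval₂ (Polynomial.C.comp φ)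
      (fun i => Polynomial.C (x i) + Polynomial.X * Polynomial.C (w i)) (A r c) *
      Polynomial.C (v c) = Polynomial.C (eval₂ φ x (A r c) * v c) +
        Polynomial.X * Polynomial.C (v c * lin φ (A r c) w) := by
    intro c _
    rw [eval_line φ _ (hA r c), map_mul, map_mul]
    ring
  rw [Finset.sum_congr rfl h3, Finset.sum_add_distrib, ← Finset.mul_sum, ← map_sum, ← map_sum,
    h1, h2]
  simp

end Affine

/-- A nonzero vector over a principal ideal domain is a multiple of a unimodular vector. -/
theorem exists_primitive {R : Type*} [CommRing R] [IsDomain R] [IsPrincipalIdealRing R]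
    {κ : Type*} [Fintype κ] (u : κ → R) (hu : u ≠ 0) :
    ∃ d : R, d ≠ 0 ∧ ∃ w : κ → R, u = d • w ∧ ∃ a : κ → R, ∑ i, a i * w i = 1 := by
  obtain ⟨d, hd⟩ := (IsPrincipalIdealRing.principal (Ideal.span (Set.range u))).principal
  rw [Ideal.submodule_span_eq] at hd
  have h1 : ∀ i, d ∣ u i := fun i => by
    rw [← Ideal.mem_span_singleton, ← hd]
    exact Ideal.subset_span ⟨i, rfl⟩
  choose w hw using h1
  have hd0 : d ≠ 0 := by
    rintro rfl
    exact hu (funext fun i => by rw [hw i, zero_mul]; rfl)
  have h2 : d ∈ Ideal.span (Set.range u) := by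
    rw [hd]
    exact Ideal.mem_span_singleton_self d
  rw [Ideal.mem_span_range_iff_exists_fun] at h2
  obtain ⟨a, ha⟩ := h2
  refine ⟨d, hd0, w, funext fun i => hw i, a, ?_⟩
  apply mul_left_cancel₀ hd0
  rw [mul_one, Finset.mul_sum]
  conv_rhs => rw [← ha]
  refine Finset.sum_congr rfl fun i _ => ?_
  rw [hw i]
  ring

/-- Main lemma on linear spaces: a space of dimension more than `n` has a unimodular vector
along which the determinant vanishes. -/
theorem exists_unimodular {σ : Type*} [Fintype σ] {S : Type*} [CommRing S] {R : Type*}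
    [CommRing R] [IsDomain R] [IsPrincipalIdealRing R] (φ : S →+* R) {n : ℕ}
    (A : Matrix (Fin n) (Fin n) (MvPolynomial σ S))
    (hA : ∀ i j, (A i j).totalDegree ≤ 1) (x : σ → R) (hx : eval₂ φ x A.det = 0)
    {κ : Type*} [Fintype κ] (E : (κ → R) →ₗ[R] (σ → R)) (hn : n < Fintype.card κ) :
    ∃ w : κ → R, (∃ a : κ → R, ∑ i, a i * w i = 1) ∧
      eval₂ (Polynomial.C.comp φ)
        (fun i => Polynomial.C (x i) + Polynomial.X * Polynomial.C (E w i)) A.det = 0 := by
  obtain ⟨L, hL⟩ := exists_space φ A hA x hx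
  have hninj : ¬ Function.Injective (L.comp E) := by
    intro h
    have := card_le_of_injective R (L.comp E) h
    rw [Fintype.card_fin] at this
    omega
  rw [← LinearMap.ker_eq_bot, LinearMap.ker_eq_bot'] at hninj
  push Not at hninj
  obtain ⟨u, hu, hu0⟩ := hninj
  obtain ⟨d, hd, w, rfl, a, ha⟩ := exists_primitive u hu0
  refine ⟨w, ⟨a, ha⟩, hL _ ?_⟩
  rw [map_smul, smul_eq_zero] at hu
  rcases hu with hu | hu
  · exact absurd hu hd
  · exact hu

end Pool.Agent.L5helper11.DC
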