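import Mathlib
import Pool.Agent.L5helper42.DC.Coeff

/-!
# The permanent near a bordered all-ones matrix

The terms of order at most two, for a border of two arbitrary vectors.
-/

namespace Pool.Agent.L5helper11.DC

open Finset Equiv Pool.Agent.L5helper42.DC.Perm

section

variable {α : Type*} [Fintype α] [DecidableEq α] {R : Type*} [CommRing R]

/-- All ones, bordered by the row `z` and the column `y` in position `o`. -/
def bord (y z : α → R) (o : α) : Matrix α α R :=
  Matrix.of fun i j => if i = o then z j else if j = o then y i else 1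

/-- The indicator of `o`. -/
def ind (R : Type*) [CommRing R] (o : α) (r : α) : R := if r = o then 1 else 0

/-- The contribution of a position `p` of the special row and of a set of columns. -/
def EE (y : α → R) (o : α) (x : Matrix α α R) (p : α) (S : Finset α) : R :=
  ∑ σ : Perm α, ind R o (σ p) * y (σ o) * ∏ i ∈ S, x (σ i) i

/-- The part of order `k`. -/
def ck (y z : α → R) (o : α) (x : Matrix α α R) (k : ℕ) : R :=
  ∑ S ∈ (univ : Finset α).powersetCard k, ∑ p, z p * EE y o x p S

theorem prod_bord (y z : α → R) (o : α) (x : Matrix α α R) (hy : y o = 0) (hz : z o = 0)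
    (hr : ∀ j, x o j = 0) (hc : ∀ i, x i o = 0) (s : R) (σ : Perm α) :
    ∏ i, (bord y z o + s • x) (σ i) i =
      y (σ o) * (∑ p, z p * ind R o (σ p)) * ∏ i, (1 + s * x (σ i) i) := by
  have hsum : ∑ p, z p * ind R o (σ p) = z (σ.symm o) := by
    rw [sum_eq_single (σ.symm o)]
    · simp [ind]
    · intro p _ hp
      have : σ p ≠ o := fun h => hp (by rw [← h, symm_apply_apply])
      simp [ind, this]
    · simp
  rw [hsum]
  by_cases hso : σ o = o
  · rw [hso, hy, zero_mul, zero_mul]
    refine prod_eq_zero (mem_univ o) ?_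
    rw [hso]
    simp [bord, hz, hr]
  · have hpo : σ.symm o ≠ o := fun h => hso (by
      conv_lhs => rw [← h]
      rw [apply_symm_apply])
    have hmem : σ.symm o ∈ univ.erase o := mem_erase.2 ⟨hpo, mem_univ _⟩
    rw [← mul_prod_erase univ _ (mem_univ o), ← mul_prod_erase (univ.erase o) _ hmem,
      ← mul_prod_erase univ (fun i => 1 + s * x (σ i) i) (mem_univ o),
      ← mul_prod_erase (univ.erase o) (fun i => 1 + s * x (σ i) i) hmem]
    have e : ∀ i ∈ (univ.erase o).erase (σ.symm o), (bord y z o + s • x) (σ i) i =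
        1 + s * x (σ i) i := by
      intro i hi
      rw [mem_erase, mem_erase] at hi
      have h1 : σ i ≠ o := fun h => hi.1 (by rw [← h, symm_apply_apply])
      simp [bord, h1, hi.2.1]
    rw [prod_congr rfl e]
    have e1 : (bord y z o + s • x) (σ o) o = y (σ o) := by
      simp [bord, hso, hc]
    have e2 : (bord y z o + s • x) (σ (σ.symm o)) (σ.symm o) = z (σ.symm o) := by
      simp [bord, hr]
    rw [e1, e2, apply_symm_apply, hr, hc]
    ring

theorem perm_bord (y z : α → R) (o : α) (x : Matrix α α R) (hy : y o = 0) (hz : z o = 0)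
    (hr : ∀ j, x o j = 0) (hc : ∀ i, x i o = 0) (s : R) :
    (bord y z o + s • x).permanent =
      ∑ k ∈ range (Fintype.card α + 1), s ^ k * ck y z o x k := by
  rw [Matrix.permanent, sum_congr rfl fun σ _ => prod_bord y z o x hy hz hr hc s σ]
  have h1 : ∀ σ : Perm α, y (σ o) * (∑ p, z p * ind R o (σ p)) * ∏ i, (1 + s * x (σ i) i) =
      ∑ S ∈ (univ : Finset α).powerset,
        s ^ S.card * ∑ p, z p * (ind R o (σ p) * y (σ o) * ∏ i ∈ S, x (σ i) i) := by
    intro σ
    rw [prod_one_add, mul_sum]
    refine sum_congr rfl fun S _ => ?_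
    rw [prod_mul_distrib, prod_const, mul_sum, sum_mul, mul_sum]
    refine sum_congr rfl fun p _ => ?_
    ring
  rw [sum_congr rfl fun σ _ => h1 σ, sum_comm]
  have hmaps : ∀ S ∈ (univ : Finset α).powerset, S.card ∈ range (Fintype.card α + 1) := by
    intro S _
    have := card_le_univ S
    rw [mem_range]
    omega
  rw [← sum_fiberwise_of_maps_to hmaps]
  refine sum_congr rfl fun k _ => ?_
  have : ((univ : Finset α).powerset.filter fun S => S.card = k) = univ.powersetCard k := by
    ext S
    simp [mem_powersetCard]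
  rw [this, ck, mul_sum]
  refine sum_congr rfl fun S hS => ?_
  rw [(mem_powersetCard.1 hS).2, ← mul_sum]
  congr 1
  rw [sum_comm]
  refine sum_congr rfl fun p _ => ?_
  rw [EE, mul_sum]

/-- The sum over all permutations which send `p` to `o`. -/
theorem sum_ind (o p : α) : (Fintype.card α : R) * ∑ σ : Perm α, ind R o (σ p) =
    (Fintype.card α).factorial := by
  rw [single (ind R o) p]
  simp [ind]

omit [Fintype α] in
theorem ind_mul (o : α) (f : α → R) (hf : f o = 0) (r : α) : ind R o r * f r = 0 := by
  unfold ind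
  split_ifs with h
  · rw [h, hf, mul_zero]
  · rw [zero_mul]

/-- One column function. -/
theorem one_col (o p j : α) (hpj : p ≠ j) (g : α → R) (hg : g o = 0) :
    ((Fintype.card α : R) - 1) * ∑ σ : Perm α, ind R o (σ p) * g (σ j) =
      (∑ r, g r) * ∑ σ : Perm α, ind R o (σ p) := by
  have h := avg (fun σ : Perm α => ind R o (σ p)) {p} (by
    intro a ha b hb σ
    rw [mem_singleton] at ha hb
    rw [Perm.mul_apply, swap_apply_of_ne_of_ne (Ne.symm ha) (Ne.symm hb)]) g j
    (by simpa using hpj.symm)
  rw [card_singleton, sum_singleton, Nat.cast_one] at h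
  rw [h, sum_eq_zero (s := univ) (f := fun σ : Perm α => ind R o (σ p) * g (σ p))
    fun σ _ => ind_mul o g hg (σ p), sub_zero]

/-- Two column functions, the second of sum zero. -/
theorem two_col (o p j l : α) (hpj : p ≠ j) (hpl : p ≠ l) (hjl : j ≠ l) (g h : α → R)
    (hh : h o = 0) :
    ((Fintype.card α : R) - 2) * ∑ σ : Perm α, ind R o (σ p) * g (σ j) * h (σ l) =
      (∑ r, h r) * (∑ σ : Perm α, ind R o (σ p) * g (σ j)) -
        ∑ σ : Perm α, ind R o (σ p) * (g (σ j) * h (σ j)) := by
  have h1 := avg (fun σ : Perm α => ind R o (σ p) * g (σ j)) {p, j} (by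
    intro a ha b hb σ
    simp only [mem_insert, mem_singleton, not_or] at ha hb
    rw [Perm.mul_apply, Perm.mul_apply, swap_apply_of_ne_of_ne (Ne.symm ha.1) (Ne.symm hb.1),
      swap_apply_of_ne_of_ne (Ne.symm ha.2) (Ne.symm hb.2)]) h l
    (by simp [hpl.symm, hjl.symm])
  rw [card_pair hpj, sum_pair hpj] at h1
  have e1 : ∑ σ : Perm α, ind R o (σ p) * g (σ j) * h (σ p) = 0 :=
    sum_eq_zero fun σ _ => by
      have := ind_mul o h hh (σ p)
      linear_combination g (σ j) * this
  have e2 : ∑ σ : Perm α, ind R o (σ p) * g (σ j) * h (σ j) =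
      ∑ σ : Perm α, ind R o (σ p) * (g (σ j) * h (σ j)) := sum_congr rfl fun σ _ => by ring
  push_cast at h1
  rw [h1, e1, e2]
  ring

variable (y : α → R) (o : α) (x : Matrix α α R) (hy : y o = 0)
  (hr : ∀ j, x o j = 0) (hc : ∀ i, x i o = 0) (hcs : ∀ j, ∑ i, x i j = 0)

include hy in
theorem EE_empty (p : α) (hpo : p ≠ o) :
    (Fintype.card α : R) * ((Fintype.card α : R) - 1) * EE y o x p ∅ =
      (Fintype.card α).factorial * ∑ r, y r := by
  have h1 := one_col o p o hpo y hy
  have h2 := sum_ind (R := R) o p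
  have e : EE y o x p ∅ = ∑ σ : Perm α, ind R o (σ p) * y (σ o) := by
    rw [EE]
    exact sum_congr rfl fun σ _ => by rw [prod_empty, mul_one]
  rw [e]
  linear_combination (Fintype.card α : R) * h1 + (∑ r, y r) * h2

include hy hr hc hcs in
theorem EE_one (p j : α) (hpo : p ≠ o) :
    (Fintype.card α : R) * ((Fintype.card α : R) - 1) * ((Fintype.card α : R) - 2) *
      EE y o x p {j} =
    - (Fintype.card α).factorial * (if p = j then 0 else ∑ r, y r * x r j) := by
  by_cases hjo : j = o
  · have e1 : EE y o x p {j} = 0 := by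
      rw [EE]
      exact sum_eq_zero fun σ _ => by rw [prod_singleton, hjo, hc, mul_zero]
    have e2 : ∑ r, y r * x r j = 0 := sum_eq_zero fun r _ => by rw [hjo, hc, mul_zero]
    rw [e1, e2]
    simp
  by_cases hpj : p = j
  · rw [if_pos hpj, EE]
    have : ∑ σ : Perm α, ind R o (σ p) * y (σ o) * ∏ i ∈ {j}, x (σ i) i = 0 :=
      sum_eq_zero fun σ _ => by
        rw [prod_singleton, ← hpj]
        have := ind_mul o (fun r => x r p) (hr p) (σ p)
        linear_combination y (σ o) * this
    rw [this]
    ring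
  · rw [if_neg hpj, EE]
    have h1 := two_col o p j o hpj hpo hjo (fun r => x r j) y hy
    have h2 := one_col o p j hpj (fun r => x r j * y r) (by rw [hr, zero_mul])
    have h3 := sum_ind (R := R) o p
    have h4 := one_col o p j hpj (fun r => x r j) (hr j)
    rw [hcs, zero_mul] at h4
    have e1 : ∑ σ : Perm α, ind R o (σ p) * y (σ o) * ∏ i ∈ {j}, x (σ i) i =
        ∑ σ : Perm α, ind R o (σ p) * x (σ j) j * y (σ o) := sum_congr rfl fun σ _ => by
      rw [prod_singleton]
      ring
    have e2 : ∑ r, y r * x r j = ∑ r, x r j * y r := sum_congr rfl fun r _ => mul_comm _ _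
    rw [e1, e2]
    set N : R := (Fintype.card α : R) with hN
    linear_combination N * (N - 1) * h1 + N * (∑ r, y r) * h4 - N * h2 -
      (∑ r, x r j * y r) * h3

include hy hr hc hcs in
theorem EE_two (p j l : α) (hjl : j ≠ l) (hpo : p ≠ o) :
    (Fintype.card α : R) * ((Fintype.card α : R) - 1) * ((Fintype.card α : R) - 2) *
      ((Fintype.card α : R) - 3) * EE y o x p {j, l} =
    (Fintype.card α).factorial *
      (if p ∈ ({j, l} : Finset α) then 0 else
        ∑ r, (2 * y r - ∑ r, y r) * (x r j * x r l)) := by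
  have hprod : ∀ σ : Perm α, ∏ i ∈ {j, l}, x (σ i) i = x (σ j) j * x (σ l) l :=
    fun σ => prod_pair hjl
  by_cases ho : j = o ∨ l = o
  · have e0 : ∀ r r', x r j * x r' l = 0 := by
      intro r r'
      rcases ho with h | h
      · rw [h, hc, zero_mul]
      · rw [h, hc, mul_zero]
    have e1 : EE y o x p {j, l} = 0 := by
      rw [EE]
      exact sum_eq_zero fun σ _ => by rw [hprod, e0, mul_zero]
    have e2 : ∑ r, (2 * y r - ∑ r, y r) * (x r j * x r l) = 0 :=
      sum_eq_zero fun r _ => by rw [e0, mul_zero]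
    rw [e1, e2]
    simp
  rw [not_or] at ho
  by_cases hp : p ∈ ({j, l} : Finset α)
  · rw [if_pos hp, EE]
    have : ∑ σ : Perm α, ind R o (σ p) * y (σ o) * ∏ i ∈ {j, l}, x (σ i) i = 0 :=
      sum_eq_zero fun σ _ => by
        rw [hprod]
        rw [mem_insert, mem_singleton] at hp
        rcases hp with rfl | rfl
        · have := ind_mul o (fun r => x r p) (hr p) (σ p)
          linear_combination y (σ o) * x (σ l) l * this
        · have := ind_mul o (fun r => x r p) (hr p) (σ p)
          linear_combination y (σ o) * x (σ j) j * this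
    rw [this]
    ring
  · rw [if_neg hp, EE]
    rw [mem_insert, mem_singleton, not_or] at hp
    obtain ⟨hpj, hpl⟩ := hp
    have h1 := avg (fun σ : Perm α => ind R o (σ p) * (x (σ j) j * x (σ l) l)) {p, j, l} (by
      intro a ha b hb σ
      simp only [mem_insert, mem_singleton, not_or] at ha hb
      simp only [Perm.mul_apply]
      rw [swap_apply_of_ne_of_ne (Ne.symm ha.1) (Ne.symm hb.1),
        swap_apply_of_ne_of_ne (Ne.symm ha.2.1) (Ne.symm hb.2.1),
        swap_apply_of_ne_of_ne (Ne.symm ha.2.2) (Ne.symm hb.2.2)]) y o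
      (by simp [hpo.symm, Ne.symm ho.1, Ne.symm ho.2])
    rw [sum_insert (by simp [hpj, hpl]), sum_pair hjl,
      card_insert_of_notMem (by simp [hpj, hpl]), card_pair hjl] at h1
    push_cast at h1
    have e1 : ∑ σ : Perm α, ind R o (σ p) * (x (σ j) j * x (σ l) l) * y (σ p) = 0 :=
      sum_eq_zero fun σ _ => by
        have := ind_mul o y hy (σ p)
        linear_combination (x (σ j) j * x (σ l) l) * this
    have h2 := two_col o p j l hpj hpl hjl (fun r => x r j * y r) (fun r => x r l) (hr l)
    have h3 := two_col o p l j hpl hpj hjl.symm (fun r => x r l * y r) (fun r => x r j) (hr j)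
    have h7 := two_col o p j l hpj hpl hjl (fun r => x r j) (fun r => x r l) (hr l)
    rw [hcs, zero_mul, zero_sub] at h2 h3 h7
    have e2 : ∑ σ : Perm α, ind R o (σ p) * (x (σ j) j * x (σ l) l) * y (σ j) =
        ∑ σ : Perm α, ind R o (σ p) * (x (σ j) j * y (σ j)) * x (σ l) l :=
      sum_congr rfl fun σ _ => by ring
    have e3 : ∑ σ : Perm α, ind R o (σ p) * (x (σ j) j * x (σ l) l) * y (σ l) =
        ∑ σ : Perm α, ind R o (σ p) * (x (σ l) l * y (σ l)) * x (σ j) j :=
      sum_congr rfl fun σ _ => by ring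
    have e4 : ∑ σ : Perm α, ind R o (σ p) * (x (σ l) l * y (σ l) * x (σ l) j) =
        ∑ σ : Perm α, ind R o (σ p) * (y (σ l) * (x (σ l) j * x (σ l) l)) :=
      sum_congr rfl fun σ _ => by ring
    have e5 : ∑ σ : Perm α, ind R o (σ p) * (x (σ j) j * y (σ j) * x (σ j) l) =
        ∑ σ : Perm α, ind R o (σ p) * (y (σ j) * (x (σ j) j * x (σ j) l)) :=
      sum_congr rfl fun σ _ => by ring
    have e7 : ∑ σ : Perm α, ind R o (σ p) * (x (σ j) j * x (σ l) l) =
        ∑ σ : Perm α, ind R o (σ p) * x (σ j) j * x (σ l) l :=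
      sum_congr rfl fun σ _ => by ring
    rw [e1, e2, e3, e7] at h1
    rw [e5] at h2
    rw [e4] at h3
    have h4 := one_col o p j hpj (fun r => y r * (x r j * x r l)) (by rw [hr, zero_mul, mul_zero])
    have h5 := one_col o p l hpl (fun r => y r * (x r j * x r l)) (by rw [hr, zero_mul, mul_zero])
    have h6 := sum_ind (R := R) o p
    have h8 := one_col o p j hpj (fun r => x r j * x r l) (by rw [hr, zero_mul])
    have e6 : ∑ σ : Perm α, ind R o (σ p) * y (σ o) * ∏ i ∈ {j, l}, x (σ i) i =
        ∑ σ : Perm α, ind R o (σ p) * (x (σ j) j * x (σ l) l) * y (σ o) :=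
      sum_congr rfl fun σ _ => by
        rw [hprod]
        ring
    have e8 : ∑ r, (2 * y r - ∑ r, y r) * (x r j * x r l) =
        2 * ∑ r, y r * (x r j * x r l) - (∑ r, y r) * ∑ r, x r j * x r l := by
      rw [mul_sum, mul_sum, ← sum_sub_distrib]
      exact sum_congr rfl fun r _ => by ring
    rw [e6, e8]
    set N : R := (Fintype.card α : R) with hN
    linear_combination N * (N - 1) * (N - 2) * h1 - N * (N - 1) * h2 - N * (N - 1) * h3
      + N * h4 + N * h5 + 2 * (∑ r, y r * (x r j * x r l)) * h6
      + N * (N - 1) * (∑ r, y r) * h7 - N * (∑ r, y r) * h8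
      - (∑ r, y r) * (∑ r, x r j * x r l) * h6

/-! ### The terms of order zero, one and two -/

include hy in
theorem ck_zero (z : α → R) (hz : z o = 0) :
    (Fintype.card α : R) * ((Fintype.card α : R) - 1) * ck y z o x 0 =
      (Fintype.card α).factorial * ((∑ r, y r) * ∑ r, z r) := by
  rw [ck, powersetCard_zero, sum_singleton, mul_sum]
  have h1 : ∀ p ∈ (univ : Finset α), (Fintype.card α : R) * ((Fintype.card α : R) - 1) *
      (z p * EE y o x p ∅) = (Fintype.card α).factorial * (∑ r, y r) * z p := by
    intro p _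
    by_cases hpo : p = o
    · rw [hpo, hz]
      ring
    · have := EE_empty y o x hy p hpo
      linear_combination z p * this
  rw [sum_congr rfl h1, ← mul_sum, mul_assoc]

include hy hr hc hcs in
theorem ck_one (z : α → R) (hz : z o = 0) (hzs : ∑ r, z r = 0) :
    (Fintype.card α : R) * ((Fintype.card α : R) - 1) * ((Fintype.card α : R) - 2) *
      ck y z o x 1 = (Fintype.card α).factorial * ∑ r, ∑ j, y r * z j * x r j := by
  have h1 : ∀ S ∈ (univ : Finset α).powersetCard 1,
      (Fintype.card α : R) * ((Fintype.card α : R) - 1) * ((Fintype.card α : R) - 2) *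
        ∑ p, z p * EE y o x p S = (Fintype.card α).factorial *
          ∏ j ∈ S, ∑ r, y r * z j * x r j := by
    intro S hS
    rw [mem_powersetCard, card_eq_one] at hS
    obtain ⟨-, j, rfl⟩ := hS
    rw [prod_singleton, mul_sum]
    have h2 : ∀ p ∈ (univ : Finset α), (Fintype.card α : R) * ((Fintype.card α : R) - 1) *
        ((Fintype.card α : R) - 2) * (z p * EE y o x p {j}) =
        - (Fintype.card α).factorial * (z p * ∑ r, y r * x r j) +
          (Fintype.card α).factorial * (if p = j then z p * ∑ r, y r * x r j else 0) := by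
      intro p _
      by_cases hpo : p = o
      · rw [hpo, hz]
        simp
      · have h3 := EE_one y o x hy hr hc hcs p j hpo
        split_ifs at h3 ⊢ with h
        · linear_combination z p * h3
        · linear_combination z p * h3
    rw [sum_congr rfl h2, sum_add_distrib, ← mul_sum, ← mul_sum, ← sum_mul, hzs,
      sum_ite_eq' univ j, if_pos (mem_univ j), zero_mul, mul_zero, zero_add, mul_sum]
    congr 1
    exact sum_congr rfl fun r _ => by ring
  rw [ck, mul_sum, sum_congr rfl h1, ← mul_sum, (newton (fun j => ∑ r, y r * z j * x r j) _).1,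
    sum_comm]

include hy hr hc hcs in
theorem ck_two (z : α → R) (hz : z o = 0) (hzs : ∑ r, z r = 0) :
    (Fintype.card α : R) * ((Fintype.card α : R) - 1) * ((Fintype.card α : R) - 2) *
      ((Fintype.card α : R) - 3) * ck y z o x 2 =
        (Fintype.card α).factorial * ∑ r, ∑ j,
          (2 * y r - ∑ r, y r) * z j * (x r j ^ 2 - x r j * ∑ l, x r l) := by
  set Y : R := ∑ r, y r with hY
  have h1 : ∀ S ∈ (univ : Finset α).powersetCard 2,
      (Fintype.card α : R) * ((Fintype.card α : R) - 1) * ((Fintype.card α : R) - 2) *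
        ((Fintype.card α : R) - 3) * ∑ p, z p * EE y o x p S =
          - ((Fintype.card α).factorial) *
          ∑ l ∈ S, z l * ∑ r, (2 * y r - Y) * x r l * ∏ i ∈ S.erase l, x r i := by
    intro S hS
    rw [mem_powersetCard, card_eq_two] at hS
    obtain ⟨-, j, l, hjl, rfl⟩ := hS
    have f1 : ({j, l} : Finset α).erase j = {l} := by
      rw [erase_insert (by simpa using hjl)]
    have f2 : ({j, l} : Finset α).erase l = {j} := by
      rw [pair_comm, erase_insert (by simpa using hjl.symm)]
    rw [sum_pair hjl, f1, f2]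
    simp only [prod_singleton]
    rw [mul_sum]
    have h2 : ∀ p ∈ (univ : Finset α), (Fintype.card α : R) * ((Fintype.card α : R) - 1) *
        ((Fintype.card α : R) - 2) * ((Fintype.card α : R) - 3) * (z p * EE y o x p {j, l}) =
        (Fintype.card α).factorial * (z p * ∑ r, (2 * y r - Y) * (x r j * x r l)) -
          (Fintype.card α).factorial * (if p ∈ ({j, l} : Finset α) then
            z p * ∑ r, (2 * y r - Y) * (x r j * x r l) else 0) := by
      intro p _
      by_cases hpo : p = o
      · rw [hpo, hz]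
        simp
      · have h3 := EE_two y o x hy hr hc hcs p j l hjl hpo
        rw [← hY] at h3
        split_ifs at h3 ⊢ with h
        · linear_combination z p * h3
        · linear_combination z p * h3
    have e1 : ∑ r, (2 * y r - Y) * x r j * x r l = ∑ r, (2 * y r - Y) * (x r j * x r l) :=
      sum_congr rfl fun r _ => by ring
    have e2 : ∑ r, (2 * y r - Y) * x r l * x r j = ∑ r, (2 * y r - Y) * (x r j * x r l) :=
      sum_congr rfl fun r _ => by ring
    rw [sum_congr rfl h2, sum_sub_distrib, ← mul_sum, ← mul_sum, ← sum_mul, hzs, ← sum_filter,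
      filter_mem_eq_inter, univ_inter, sum_pair hjl, e1, e2]
    ring
  rw [ck, mul_sum, sum_congr rfl h1, ← mul_sum,
    marked univ 1 (fun l T => z l * ∑ r, (2 * y r - Y) * x r l * ∏ i ∈ T, x r i)]
  have h3 : ∀ l ∈ (univ : Finset α), ∑ T ∈ (univ.erase l).powersetCard 1,
      z l * ∑ r, (2 * y r - Y) * x r l * ∏ i ∈ T, x r i =
        - ∑ r, (2 * y r - Y) * z l * (x r l ^ 2 - x r l * ∑ j, x r j) := by
    intro l _
    rw [← mul_sum, sum_comm]
    have h4 : ∀ r ∈ (univ : Finset α), ∑ T ∈ (univ.erase l).powersetCard 1,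
        (2 * y r - Y) * x r l * ∏ i ∈ T, x r i =
          - ((2 * y r - Y) * (x r l ^ 2 - x r l * ∑ j, x r j)) := by
      intro r _
      rw [← mul_sum, (newton (fun i => x r i) _).1]
      have h5 := add_sum_erase univ (fun i => x r i) (mem_univ l)
      linear_combination (2 * y r - Y) * x r l * h5
    rw [sum_congr rfl h4, mul_sum, ← sum_neg_distrib]
    exact sum_congr rfl fun r _ => by ring
  rw [sum_congr rfl h3, sum_comm (s := univ) (t := univ)
    (f := fun r j => (2 * y r - Y) * z j * (x r j ^ 2 - x r j * ∑ l, x r l)), sum_neg_distrib]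
  ring

/-- The term of order two with a correcting column. -/
theorem ck_total (z c : α → R) (hy : y o = 0) (hr : ∀ j, x o j = 0) (hc : ∀ i, x i o = 0)
    (hcs : ∀ j, ∑ i, x i j = 0) (hz : z o = 0) (hzs : ∑ r, z r = 0)
    (hcr : ∀ r, ((Fintype.card α : R) - 3) * c r = (2 * y r - ∑ r, y r) * ∑ l, x r l)
    (hco : c o = 0) :
    (Fintype.card α : R) * ((Fintype.card α : R) - 1) * ((Fintype.card α : R) - 2) *
      ((Fintype.card α : R) - 3) * (ck y z o x 2 + ck c z o x 1) =
        (Fintype.card α).factorial * ∑ r, ∑ j, (2 * y r - ∑ r, y r) * z j * x r j ^ 2 := by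
  have h1 := ck_one c o x hco hr hc hcs z hz hzs
  have h2 := ck_two y o x hy hr hc hcs z hz hzs
  have h3 : ((Fintype.card α : R) - 3) * ∑ r, ∑ j, c r * z j * x r j =
      ∑ r, ∑ j, (2 * y r - ∑ r, y r) * z j * x r j ^ 2 - ∑ r, ∑ j,
          (2 * y r - ∑ r, y r) * z j * (x r j ^ 2 - x r j * ∑ l, x r l) := by
    rw [mul_sum, ← sum_sub_distrib]
    refine sum_congr rfl fun r _ => ?_
    rw [mul_sum, ← sum_sub_distrib]
    refine sum_congr rfl fun j _ => ?_
    linear_combination z j * x r j * hcr r
  linear_combination h2 + ((Fintype.card α : R) - 3) * h1 + (Fintype.card α).factorial * h3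

end

end Pool.Agent.L5helper11.DC
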