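import Mathlib

/-!
# A diagonal quadratic form without zeros over a rational function field
-/

namespace Pool.Agent.L5helper11.DC

open MvPolynomial Finset

section

variable {F : Type*} [Field F] {σ : Type*} [LinearOrder σ] [WellFoundedGT σ]
  {β γ : Type*} [Fintype β] [Fintype γ]

theorem aniso_poly (a : β → σ) (b : γ → σ) (ha : Function.Injective a) (hb : Function.Injective b)
    (hab : ∀ i j, a i ≠ b j) (p : β → γ → MvPolynomial σ F)
    (h : ∑ i, ∑ j, (X (a i) : MvPolynomial σ F) * X (b j) * p i j ^ 2 = 0) :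
    ∀ i j, p i j = 0 := by
  classical
  by_contra hcon
  push Not at hcon
  obtain ⟨i₁, j₁, h₁⟩ := hcon
  set f : β × γ → MvPolynomial σ F := fun q => X (a q.1) * X (b q.2) * p q.1 q.2 ^ 2 with hf
  set m : MonomialOrder σ := MonomialOrder.lex with hm
  set T : Finset (β × γ) := univ.filter fun q => p q.1 q.2 ≠ 0 with hT
  have hdeg : ∀ q ∈ T, m.degree (f q) =
      Finsupp.single (a q.1) 1 + Finsupp.single (b q.2) 1 + 2 • m.degree (p q.1 q.2) := by
    intro q hq
    rw [hT, mem_filter] at hq
    rw [hf]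
    have hX : (X (a q.1) : MvPolynomial σ F) * X (b q.2) ≠ 0 :=
      mul_ne_zero (X_ne_zero _) (X_ne_zero _)
    rw [MonomialOrder.degree_mul hX (pow_ne_zero 2 hq.2),
      MonomialOrder.degree_mul (X_ne_zero _) (X_ne_zero _), MonomialOrder.degree_X,
      MonomialOrder.degree_X, MonomialOrder.degree_pow]
  have hne : T.Nonempty := ⟨(i₁, j₁), by rw [hT, mem_filter]; exact ⟨mem_univ _, h₁⟩⟩
  obtain ⟨q₀, hq₀, hmax⟩ := exists_max_image T (fun q => m.toSyn (m.degree (f q))) hne
  have hinj : ∀ q ∈ T, m.degree (f q) = m.degree (f q₀) → q = q₀ := by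
    intro q hq he
    rw [hdeg q hq, hdeg q₀ hq₀] at he
    have e1 := DFunLike.congr_fun he (a q₀.1)
    have e2 := DFunLike.congr_fun he (b q₀.2)
    simp only [Finsupp.add_apply, Finsupp.smul_apply, smul_eq_mul, Finsupp.single_apply] at e1 e2
    have n1 : ¬ (b q.2 = a q₀.1) := fun h => hab _ _ h.symm
    have n2 : ¬ (b q₀.2 = a q₀.1) := fun h => hab _ _ h.symm
    have n3 : ¬ (a q.1 = b q₀.2) := fun h => hab _ _ h
    have n4 : ¬ (a q₀.1 = b q₀.2) := fun h => hab _ _ h
    rw [if_neg n1, if_neg n2, if_pos trivial] at e1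
    rw [if_neg n3, if_neg n4, if_pos trivial] at e2
    have c1 : a q.1 = a q₀.1 := by
      by_contra hc
      rw [if_neg hc] at e1
      omega
    have c2 : b q.2 = b q₀.2 := by
      by_contra hc
      rw [if_neg hc] at e2
      omega
    exact Prod.ext (ha c1) (hb c2)
  have hsum : ∑ q, f q = 0 := by
    rw [Fintype.sum_prod_type]
    exact h
  have hcoeff := congrArg (coeff (m.degree (f q₀))) hsum
  rw [coeff_sum, coeff_zero, Finset.sum_eq_single q₀] at hcoeff
  · rw [MonomialOrder.coeff_degree_eq_zero_iff] at hcoeff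
    rw [hT, mem_filter] at hq₀
    have : f q₀ ≠ 0 := mul_ne_zero (mul_ne_zero (X_ne_zero _) (X_ne_zero _))
      (pow_ne_zero 2 hq₀.2)
    exact this hcoeff
  · intro q _ hq
    by_cases hqT : q ∈ T
    · refine MonomialOrder.coeff_eq_zero_of_lt (m := m) ?_
      refine lt_of_le_of_ne (hmax q hqT) fun he => hq (hinj q hqT (m.toSyn.injective he))
    · rw [hT, mem_filter] at hqT
      have : p q.1 q.2 = 0 := by
        by_contra hc
        exact hqT ⟨mem_univ _, hc⟩
      simp [hf, this]
  · intro h
    exact absurd (mem_univ _) h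

/-- The same over the field of fractions. -/
theorem aniso (K : Type*) [Field K] [Algebra (MvPolynomial σ F) K]
    [IsFractionRing (MvPolynomial σ F) K]
    (a : β → σ) (b : γ → σ) (ha : Function.Injective a) (hb : Function.Injective b)
    (hab : ∀ i j, a i ≠ b j) (p : β → γ → K)
    (h : ∑ i, ∑ j, algebraMap (MvPolynomial σ F) K (X (a i)) *
      algebraMap (MvPolynomial σ F) K (X (b j)) * p i j ^ 2 = 0) :
    ∀ i j, p i j = 0 := by
  classical
  obtain ⟨d, hd⟩ := IsLocalization.exist_integer_multiples_of_finite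
    (nonZeroDivisors (MvPolynomial σ F)) (fun q : β × γ => p q.1 q.2)
  choose r hr using hd
  have hd0 : algebraMap (MvPolynomial σ F) K d ≠ 0 :=
    IsLocalization.to_map_ne_zero_of_mem_nonZeroDivisors K le_rfl d.2
  have hr' : ∀ i j, algebraMap (MvPolynomial σ F) K (r (i, j)) =
      algebraMap (MvPolynomial σ F) K d * p i j := by
    intro i j
    rw [hr (i, j), Algebra.smul_def]
  have h0 := aniso_poly (F := F) a b ha hb hab (fun i j => r (i, j)) (by
    apply IsFractionRing.injective (MvPolynomial σ F) K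
    rw [map_zero, map_sum]
    have h1 : ∀ i ∈ (univ : Finset β), algebraMap (MvPolynomial σ F) K
        (∑ j, (X (a i) : MvPolynomial σ F) * X (b j) * r (i, j) ^ 2) =
        algebraMap (MvPolynomial σ F) K d ^ 2 * ∑ j, algebraMap (MvPolynomial σ F) K (X (a i)) *
          algebraMap (MvPolynomial σ F) K (X (b j)) * p i j ^ 2 := by
      intro i _
      rw [map_sum, mul_sum]
      refine sum_congr rfl fun j _ => ?_
      rw [map_mul, map_mul, map_pow, hr']
      ring
    rw [sum_congr rfl h1, ← mul_sum, h, mul_zero])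
  intro i j
  have h2 := hr' i j
  rw [h0 i j, map_zero] at h2
  rcases mul_eq_zero.1 h2.symm with h3 | h3
  · exact absurd h3 hd0
  · exact h3

end

end Pool.Agent.L5helper11.DC
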