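import Mathlib

/-!
# Small zeros of polynomials over power series
-/

namespace Pool.Agent.L5helper11.DC

open Polynomial

/-- A polynomial over `K⟦X⟧` whose constant term is small and whose linear term is a unit has a
small zero. -/
theorem exists_root {K : Type*} [Field K] (G : (PowerSeries K)[X])
    (h0 : PowerSeries.constantCoeff (G.coeff 0) = 0)
    (h1 : PowerSeries.constantCoeff (G.coeff 1) ≠ 0) :
    ∃ w : PowerSeries K, PowerSeries.constantCoeff w = 0 ∧ G.eval w = 0 := by
  set I : Ideal (PowerSeries K) := Ideal.span {PowerSeries.X} with hI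
  have hmem : ∀ a : PowerSeries K, a ∈ I ↔ PowerSeries.constantCoeff a = 0 := by
    intro a
    rw [hI, Ideal.mem_span_singleton, PowerSeries.X_dvd_iff]
  have hunit : ∀ a : PowerSeries K, PowerSeries.constantCoeff a ≠ 0 → IsUnit a := by
    intro a ha
    rw [PowerSeries.isUnit_iff_constantCoeff]
    exact isUnit_iff_ne_zero.2 ha
  set g₀ := G.coeff 0 with hg₀
  set g₁ := G.coeff 1 with hg₁
  set G₂ := G.divX.divX with hG₂
  set W := G₂.comp (C g₀ * X) with hW
  set e := W.natDegree with he
  have hG : G = G₂ * X ^ 2 + C g₁ * X + C g₀ := by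
    conv_lhs => rw [← divX_mul_X_add G, ← divX_mul_X_add G.divX]
    rw [coeff_divX]
    ring
  set H : (PowerSeries K)[X] := X ^ (e + 2) + (C g₁ * X ^ (e + 1) + C g₀ * reflect e W) with hH
  have hlow : (C g₁ * X ^ (e + 1) + C g₀ * reflect e W).degree < ((e + 2 : ℕ) : WithBot ℕ) := by
    have h2 : (C g₁ * X ^ (e + 1) + C g₀ * reflect e W).natDegree ≤ e + 1 := by
      refine (natDegree_add_le _ _).trans (max_le ?_ ?_)
      · exact natDegree_C_mul_X_pow_le _ _
      · refine (natDegree_C_mul_le _ _).trans ?_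
        refine natDegree_reflect_le.trans ?_
        rw [← he]
        simp
    refine lt_of_le_of_lt degree_le_natDegree ?_
    rw [Nat.cast_lt]
    omega
  have hmon : H.Monic := monic_X_pow_add hlow
  have hg₀I : g₀ ∈ I := (hmem _).2 h0
  have hev : H.eval (-g₁) ∈ I := by
    rw [hH, eval_add, eval_add, eval_mul, eval_mul, eval_pow, eval_pow, eval_X, eval_C, eval_C]
    have : (-g₁) ^ (e + 2) + (g₁ * (-g₁) ^ (e + 1) + g₀ * (reflect e W).eval (-g₁)) =
        g₀ * (reflect e W).eval (-g₁) := by ring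
    rw [this]
    exact Ideal.mul_mem_right _ _ hg₀I
  have hder : IsUnit (Ideal.Quotient.mk I (H.derivative.eval (-g₁))) := by
    apply IsUnit.map
    apply hunit
    have h2 : H.derivative.eval (-g₁) = (-g₁) ^ (e + 1) +
        g₀ * (reflect e W).derivative.eval (-g₁) := by
      rw [hH]
      simp only [derivative_add, derivative_X_pow, derivative_C_mul, eval_add, eval_mul, eval_C,
        eval_X, eval_pow]
      push_cast
      ring
    rw [h2, map_add, map_mul, h0, zero_mul, add_zero, map_pow, map_neg]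
    exact pow_ne_zero _ (neg_ne_zero.2 h1)
  obtain ⟨t, ht, htI⟩ := HenselianRing.is_henselian (I := I) H hmon (-g₁) hev hder
  have htu : PowerSeries.constantCoeff t ≠ 0 := by
    rw [hmem, map_sub, map_neg, sub_neg_eq_add, add_eq_zero_iff_eq_neg] at htI
    rw [htI]
    exact neg_ne_zero.2 h1
  obtain ⟨v, hv⟩ := (hunit t htu).exists_right_inv
  have hv' : v * t = 1 := by rw [mul_comm]; exact hv
  let _ : Invertible v := ⟨t, hv, hv'⟩
  have hinv : ⅟v = t := rfl
  have hrefl := eval₂_reflect_mul_pow (RingHom.id (PowerSeries K)) v e W le_rfl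
  rw [hinv] at hrefl
  change (reflect e W).eval t * v ^ e = W.eval v at hrefl
  have hWv : W.eval v = G₂.eval (g₀ * v) := by
    rw [hW, eval_comp, eval_mul, eval_C, eval_X]
  refine ⟨g₀ * v, ?_, ?_⟩
  · rw [map_mul, h0, zero_mul]
  · rw [hG, eval_add, eval_add, eval_mul, eval_mul, eval_pow, eval_X, eval_C, eval_C, ← hWv,
      ← hrefl]
    rw [IsRoot, hH, eval_add, eval_add, eval_mul, eval_mul, eval_pow, eval_pow, eval_X, eval_C,
      eval_C] at ht
    have e1 : v ^ (e + 2) * t ^ (e + 2) = 1 := by rw [← mul_pow, hv', one_pow]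
    have e2 : v ^ (e + 2) * t ^ (e + 1) = v := by
      rw [pow_succ v (e + 1), mul_right_comm, ← mul_pow, hv', one_pow, one_mul]
    linear_combination g₀ * v ^ (e + 2) * ht - g₀ * e1 - g₀ * g₁ * e2

end Pool.Agent.L5helper11.DC
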