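import Mathlib
import Pool.Agent.L5helper11.DC.A
import Pool.Agent.L5helper11.DC.B
import Pool.Agent.L5helper11.DC.C
import Pool.Agent.L5helper11.DC.D

/-!
# Border determinantal complexity of the permanent: leading constant one
-/

namespace Pool.Agent.L5helper11.DC

open Finset

/-! ### The permanent as a polynomial and its expansion -/

section Expand

variable {α : Type*} [Fintype α] [DecidableEq α]

/-- The permanent as a polynomial. -/
noncomputable def permPoly (m : ℕ) (F : Type*) [CommRing F] : MvPolynomial (Fin m × Fin m) F :=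
  (Matrix.of fun i j : Fin m => (MvPolynomial.X (i, j) : MvPolynomial (Fin m × Fin m) F)).permanent

theorem eval_permPoly (m : ℕ) {F T : Type*} [CommRing F] [CommRing T] (ψ : F →+* T)
    (x : Fin m × Fin m → T) :
    MvPolynomial.eval₂ ψ x (permPoly m F) = (Matrix.of fun i j => x (i, j)).permanent := by
  rw [permPoly, Matrix.permanent, Matrix.permanent, ← MvPolynomial.coe_eval₂Hom, map_sum]
  refine sum_congr rfl fun σ _ => ?_
  rw [map_prod]
  refine prod_congr rfl fun i _ => ?_
  rw [Matrix.of_apply, Matrix.of_apply, MvPolynomial.coe_eval₂Hom, MvPolynomial.eval₂_X]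

theorem ck_map {R T : Type*} [CommRing R] [CommRing T] (ψ : R →+* T) (y z : α → R) (o : α)
    (x : Matrix α α R) (k : ℕ) :
    ck (fun r => ψ (y r)) (fun r => ψ (z r)) o (x.map ψ) k = ψ (ck y z o x k) := by
  rw [ck, ck, map_sum]
  refine sum_congr rfl fun S _ => ?_
  rw [map_sum]
  refine sum_congr rfl fun p _ => ?_
  rw [map_mul, EE, EE, map_sum]
  congr 1
  refine sum_congr rfl fun σ _ => ?_
  rw [map_mul, map_mul, map_prod]
  congr 2
  rw [ind, ind]
  split_ifs
  · rw [map_one]
  · rw [map_zero]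

theorem EE_lin {R : Type*} [CommRing R] (y c : α → R) (s : R) (o : α)
    (x : Matrix α α R) (p : α) (S : Finset α) :
    EE (fun r => y r + s * c r) o x p S = EE y o x p S + s * EE c o x p S := by
  rw [EE, EE, EE, mul_sum, ← sum_add_distrib]
  exact sum_congr rfl fun σ _ => by ring

theorem ck_lin {R : Type*} [CommRing R] (y c z : α → R) (s : R) (o : α)
    (x : Matrix α α R) (k : ℕ) :
    ck (fun r => y r + s * c r) z o x k = ck y z o x k + s * ck c z o x k := by
  rw [ck, ck, ck, mul_sum, ← sum_add_distrib]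
  refine sum_congr rfl fun S _ => ?_
  rw [mul_sum, ← sum_add_distrib]
  refine sum_congr rfl fun p _ => ?_
  rw [EE_lin]
  ring

open Polynomial in
/-- The coefficient of order two, with a perturbation of the border column. -/
theorem coeff_perm_col {R : Type*} [CommRing R] (y z c : α → R) (o : α) (x : Matrix α α R)
    (hy : y o = 0) (hz : z o = 0) (hco : c o = 0) (hr : ∀ j, x o j = 0) (hc : ∀ i, x i o = 0)
    (hk : 2 ≤ Fintype.card α) :
    ((Matrix.of fun i j => (C (bord y z o i j) +
      X * C (x i j + if j = o then c i else 0) : R[X])).permanent).coeff 2 =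
      ck y z o x 2 + ck c z o x 1 := by
  have h1 : (Matrix.of fun i j => (C (bord y z o i j) +
      X * C (x i j + if j = o then c i else 0) : R[X])) =
      bord (fun r => C (y r) + X * C (c r)) (fun r => C (z r)) o + (X : R[X]) • x.map C := by
    ext1 i j
    simp only [Matrix.of_apply, Matrix.add_apply, Matrix.smul_apply, Matrix.map_apply,
      smul_eq_mul, bord]
    by_cases hi : i = o
    · subst hi
      rw [if_pos rfl, if_pos rfl]
      split_ifs with h
      · rw [hco, add_zero]
      · rw [add_zero]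
    · rw [if_neg hi, if_neg hi]
      split_ifs with h
      · subst h
        rw [hc, zero_add, map_zero, mul_zero, add_zero]
      · rw [add_zero, map_one]
  have h2 : ∀ k ∈ range (Fintype.card α + 1),
      ((X : R[X]) ^ k * ck (fun r => C (y r) + X * C (c r)) (fun r => C (z r)) o (x.map C) k).coeff
        2 = (if k = 2 then ck y z o x 2 else 0) + (if k = 1 then ck c z o x 1 else 0) := by
    intro k _
    rw [ck_lin, ck_map C, ck_map C]
    have : (X : R[X]) ^ k * (C (ck y z o x k) + X * C (ck c z o x k)) =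
        C (ck y z o x k) * X ^ k + C (ck c z o x k) * X ^ (k + 1) := by ring
    rw [this, coeff_add, coeff_C_mul_X_pow, coeff_C_mul_X_pow]
    congr 1
    · by_cases h : k = 2
      · subst h
        simp
      · rw [if_neg h, if_neg (fun h' => h h'.symm)]
    · by_cases h : k = 1
      · subst h
        simp
      · rw [if_neg h, if_neg (fun h' => h (by omega))]
  rw [h1, perm_bord (fun r => C (y r) + X * C (c r)) (fun r => C (z r)) o (x.map C)
    (by simp [hy, hco]) (by simp [hz]) (by simp [hr]) (by simp [hc]) X, finsetSum_coeff,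
    sum_congr rfl h2, sum_add_distrib, sum_ite_eq', sum_ite_eq', if_pos, if_pos]
  · rw [mem_range]
    omega
  · rw [mem_range]
    omega

/-- The permanent of a bordered matrix. -/
theorem perm_zero {R : Type*} [CommRing R] (y z : α → R) (o : α) (hy : y o = 0) (hz : z o = 0) :
    (Fintype.card α : R) * ((Fintype.card α : R) - 1) * (bord y z o).permanent =
      (Fintype.card α).factorial * ((∑ r, y r) * ∑ r, z r) := by
  have h1 := perm_bord y z o 0 hy hz (fun _ => rfl) (fun _ => rfl) 0
  rw [smul_zero, add_zero, sum_eq_single 0] at h1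
  · rw [h1, pow_zero, one_mul]
    exact ck_zero y o 0 hy z hz
  · intro k _ hk
    rw [zero_pow hk, zero_mul]
  · intro h
    exact absurd (mem_range.2 (Nat.succ_pos _)) h

end Expand

/-! ### Concrete vectors and matrices -/

section Concrete

variable {R : Type*} [CommRing R]

/-- A vector of sum zero which vanishes at `0`. -/
def vec {k : ℕ} (Y : Fin k → R) : Fin (k + 2) → R := Fin.cons 0 (Fin.cons (-∑ i, Y i) Y)

theorem vec_zero {k : ℕ} (Y : Fin k → R) : vec Y 0 = 0 := rfl

theorem vec_succ {k : ℕ} (Y : Fin k → R) (i : Fin k) : vec Y i.succ.succ = Y i := rfl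

theorem vec_sum {k : ℕ} (Y : Fin k → R) : ∑ i, vec Y i = 0 := by
  rw [Fin.sum_univ_succ, Fin.sum_univ_succ]
  change 0 + (-∑ i, Y i + ∑ i, Y i) = 0
  ring

/-- A translated vector which vanishes at `0`. -/
def shf {k : ℕ} (h : Fin k → R) (τ : R) : Fin (k + 1) → R := Fin.cons 0 fun i => h i + τ

theorem shf_zero {k : ℕ} (h : Fin k → R) (τ : R) : shf h τ 0 = 0 := rfl

theorem shf_succ {k : ℕ} (h : Fin k → R) (τ : R) (i : Fin k) : shf h τ i.succ = h i + τ := rfl

theorem shf_sum {k : ℕ} (h : Fin k → R) (τ : R) : ∑ i, shf h τ i = ∑ i, h i + k * τ := by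
  rw [Fin.sum_univ_succ]
  change 0 + ∑ i, (h i + τ) = _
  rw [zero_add, sum_add_distrib, sum_const, card_univ, Fintype.card_fin, nsmul_eq_mul]

/-- A matrix with zero column sums, whose row `0` and columns `0`, `1` are zero, from its
main part. -/
def blk {q : ℕ} (u : Fin (q + 1) × Fin (q + 1) → R) : Fin (q + 2) → Fin (q + 1) → R :=
  Fin.cons (fun j => -∑ i, u (i, j)) fun i j => u (i, j)

/-- The big matrix. -/
def emb {k l : ℕ} (f : Fin k → Fin l → R) : Fin (k + 1) → Fin (l + 2) → R :=
  Fin.cons (fun _ => 0) fun i => Fin.cons 0 (Fin.cons 0 (f i))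

theorem emb_zero {k l : ℕ} (f : Fin k → Fin l → R) (j) : emb f 0 j = 0 := rfl

theorem emb_zero' {k l : ℕ} (f : Fin k → Fin l → R) (i) : emb f i 0 = 0 :=
  Fin.cases rfl (fun _ => rfl) i

theorem emb_one' {k l : ℕ} (f : Fin k → Fin l → R) (i) : emb f i (Fin.succ 0) = 0 :=
  Fin.cases rfl (fun _ => rfl) i

theorem emb_succ {k l : ℕ} (f : Fin k → Fin l → R) (i : Fin k) (j : Fin l) :
    emb f i.succ j.succ.succ = f i j := rfl

theorem blk_col {q : ℕ} (u : Fin (q + 1) × Fin (q + 1) → R) (j) : ∑ i, blk u i j = 0 := by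
  rw [Fin.sum_univ_succ]
  change (-∑ i, u (i, j)) + ∑ i, u (i, j) = 0
  ring

/-- Induction on an index of a column of the big matrix. -/
theorem fin_two {k : ℕ} {P : Fin (k + 2) → Prop} (h0 : P 0) (h1 : P (Fin.succ 0))
    (h2 : ∀ i : Fin k, P i.succ.succ) (i) : P i :=
  Fin.cases h0 (fun i => Fin.cases h1 h2 i) i

theorem emb_col {k l : ℕ} (f : Fin k → Fin l → R) (h : ∀ j, ∑ i, f i j = 0) (j) :
    ∑ i, emb f i j = 0 := by
  refine fin_two (P := fun j => ∑ i, emb f i j = 0) ?_ ?_ ?_ j
  · exact sum_eq_zero fun i _ => emb_zero' f i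
  · exact sum_eq_zero fun i _ => emb_one' f i
  · intro j
    rw [Fin.sum_univ_succ, emb_zero, zero_add]
    exact h j

theorem sum_two {k : ℕ} (g : Fin (k + 2) → R) (h0 : g 0 = 0) (h1 : g (Fin.succ 0) = 0) :
    ∑ i, g i = ∑ i : Fin k, g i.succ.succ := by
  rw [Fin.sum_univ_succ, Fin.sum_univ_succ, h0, h1, zero_add, zero_add]

theorem emb_form {k l : ℕ} (Y : Fin (k + 1) → R) (Z : Fin l → R) (f : Fin k → Fin l → R) :
    ∑ r, ∑ j, Y r * vec Z j * emb f r j ^ 2 = ∑ r : Fin k, ∑ j, Y r.succ * Z j * f r j ^ 2 := by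
  have h : ∀ r j, emb f r j = 0 → Y r * vec Z j * emb f r j ^ 2 = 0 := by
    intro r j h
    rw [h]
    ring
  rw [Fin.sum_univ_succ, sum_eq_zero (fun j _ => h 0 j (emb_zero f j)), zero_add]
  refine sum_congr rfl fun r _ => ?_
  rw [sum_two (fun j => Y r.succ * vec Z j * emb f r.succ j ^ 2)
    (h _ 0 (emb_zero' f _)) (h _ (Fin.succ 0) (emb_one' f _))]
  rfl

theorem blk_map {T : Type*} [CommRing T] (ψ : R →+* T) {q : ℕ}
    (u : Fin (q + 1) × Fin (q + 1) → R) (i j) :
    ψ (blk u i j) = blk (fun p => ψ (u p)) i j := by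
  refine Fin.cases ?_ (fun i => rfl) i
  change ψ (-∑ i, u (i, j)) = -∑ i, ψ (u (i, j))
  rw [map_neg, map_sum]

theorem emb_map {T : Type*} [CommRing T] (ψ : R →+* T) {k l : ℕ} (f : Fin k → Fin l → R) (i j) :
    ψ (emb f i j) = emb (fun r c => ψ (f r c)) i j := by
  refine Fin.cases ?_ (fun i => ?_) i
  · rw [emb_zero, emb_zero, map_zero]
  · refine fin_two (P := fun j => ψ (emb f i.succ j) =
      emb (fun r c => ψ (f r c)) i.succ j) ?_ ?_ ?_ j
    · rw [emb_zero', emb_zero', map_zero]
    · rw [emb_one', emb_one', map_zero]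
    · intro j
      rfl

theorem blk_add {q : ℕ} (u v : Fin (q + 1) × Fin (q + 1) → R) (i j) :
    blk (u + v) i j = blk u i j + blk v i j := by
  refine Fin.cases ?_ (fun i => rfl) i
  change -∑ i, (u (i, j) + v (i, j)) = -∑ i, u (i, j) + -∑ i, v (i, j)
  rw [sum_add_distrib]
  ring

theorem blk_smul {q : ℕ} (c : R) (u : Fin (q + 1) × Fin (q + 1) → R) (i j) :
    blk (c • u) i j = c * blk u i j := by
  refine Fin.cases ?_ (fun i => rfl) i
  change -∑ i, c * u (i, j) = c * -∑ i, u (i, j)
  rw [← mul_sum]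
  ring

theorem emb_add {k l : ℕ} (f g : Fin k → Fin l → R) (i j) :
    emb (fun r c => f r c + g r c) i j = emb f i j + emb g i j := by
  refine Fin.cases ?_ (fun i => ?_) i
  · simp only [emb_zero, add_zero]
  · refine fin_two (P := fun j => emb (fun r c => f r c + g r c) i.succ j =
      emb f i.succ j + emb g i.succ j) ?_ ?_ ?_ j
    · simp only [emb_zero', add_zero]
    · simp only [emb_one', add_zero]
    · intro j
      rfl

theorem emb_smul {k l : ℕ} (c : R) (f : Fin k → Fin l → R) (i j) :
    emb (fun r s => c * f r s) i j = c * emb f i j := by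
  refine Fin.cases ?_ (fun i => ?_) i
  · simp only [emb_zero, mul_zero]
  · refine fin_two (P := fun j => emb (fun r s => c * f r s) i.succ j =
      c * emb f i.succ j) ?_ ?_ ?_ j
    · simp only [emb_zero', mul_zero]
    · simp only [emb_one', mul_zero]
    · intro j
      rfl

/-- The main part of a direction. -/
def mp {q : ℕ} (u : Fin (q + 1) × Fin (q + 1) → R) : Matrix (Fin (q + 3)) (Fin (q + 3)) R :=
  emb (blk u)

theorem mp_map {T : Type*} [CommRing T] (ψ : R →+* T) {q : ℕ}
    (u : Fin (q + 1) × Fin (q + 1) → R) (i j) :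
    ψ (mp u i j) = mp (fun p => ψ (u p)) i j := by
  rw [mp, mp, emb_map]
  congr 1
  funext r c
  exact blk_map ψ u r c

theorem mp_add {q : ℕ} (u v : Fin (q + 1) × Fin (q + 1) → R) (i j) :
    mp (u + v) i j = mp u i j + mp v i j := by
  rw [mp, mp, mp, ← emb_add]
  congr 1
  funext r c
  exact blk_add u v r c

theorem mp_smul {q : ℕ} (c : R) (u : Fin (q + 1) × Fin (q + 1) → R) (i j) :
    mp (c • u) i j = c * mp u i j := by
  rw [mp, mp, ← emb_smul]
  congr 1
  funext r s
  exact blk_smul c u r s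

/-- The parametrisation of the directions: a correcting column is added. -/
def dir {q : ℕ} (w : Fin (q + 3) → R) :
    (Fin (q + 1) × Fin (q + 1) → R) →ₗ[R] (Fin (q + 3) × Fin (q + 3) → R) where
  toFun u p := mp u p.1 p.2 + if p.2 = 0 then w p.1 * ∑ l, mp u p.1 l else 0
  map_add' u v := by
    funext p
    rw [Pi.add_apply]
    simp only [mp_add, sum_add_distrib]
    split_ifs <;> ring
  map_smul' c u := by
    funext p
    rw [Pi.smul_apply, smul_eq_mul, RingHom.id_apply]
    simp only [mp_smul, ← mul_sum]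
    split_ifs <;> ring

theorem dir_apply {q : ℕ} (w : Fin (q + 3) → R) (u : Fin (q + 1) × Fin (q + 1) → R) (p) :
    dir w u p = mp u p.1 p.2 + if p.2 = 0 then w p.1 * ∑ l, mp u p.1 l else 0 := rfl

theorem dir_map {T : Type*} [CommRing T] (ψ : R →+* T) {q : ℕ} (w : Fin (q + 3) → R)
    (u : Fin (q + 1) × Fin (q + 1) → R) (p) :
    ψ (dir w u p) = dir (fun r => ψ (w r)) (fun r => ψ (u r)) p := by
  rw [dir_apply, dir_apply, map_add, mp_map]
  congr 1
  split_ifs
  · rw [map_mul, map_sum]
    congr 1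
    exact sum_congr rfl fun l _ => mp_map ψ u _ _
  · rw [map_zero]

end Concrete

end Pool.Agent.L5helper11.DC
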