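import Mathlib
import Pool.Agent.L5helper11.DC.E

/-!
# Border determinantal complexity of the permanent: the proof
-/

namespace Pool.Agent.L5helper11.DC

open Finset

section Line

open Polynomial

variable {σ : Type*} {S R F T : Type*} [CommRing S] [CommRing R] [CommRing F] [CommRing T]

theorem map_line (φ : S →+* R) (ψ : R →+* T) (cc : S →+* F) (ι : F →+* T)
    (hc : ψ.comp φ = ι.comp cc) (a b : σ → R) (g : MvPolynomial σ S) :
    (MvPolynomial.eval₂ (C.comp φ) (fun p => C (a p) + X * C (b p)) g).map ψ =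
      MvPolynomial.eval₂ (C.comp ι) (fun p => C (ψ (a p)) + X * C (ψ (b p)))
        (MvPolynomial.map cc g) := by
  rw [← coe_mapRingHom, MvPolynomial.eval₂_comp_left, MvPolynomial.eval₂_map]
  congr 1
  · ext s
    have := RingHom.congr_fun hc s
    simp only [RingHom.comp_apply, coe_mapRingHom, map_C] at this ⊢
    rw [this]
  · funext p
    simp

theorem eval_line_at (φ : S →+* R) (a b : σ → R) (g : MvPolynomial σ S) (w : R) :
    (MvPolynomial.eval₂ (C.comp φ) (fun p => C (a p) + X * C (b p)) g).eval w =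
      MvPolynomial.eval₂ φ (fun p => a p + w * b p) g := by
  rw [← coe_evalRingHom, MvPolynomial.eval₂_comp_left]
  congr 1
  · ext s
    simp
  · funext p
    simp only [Function.comp, coe_evalRingHom, eval_add, eval_C, eval_mul, eval_X]

end Line

section Main

variable {F : Type*} [Field F] (q : ℕ)

/-- The index of the variables. -/
abbrev Var (q : ℕ) := Fin (q + 2 + (q + 1))

/-- The field of rational functions in independent variables `h i`, `Z j`. -/
abbrev KK (F : Type*) [Field F] (q : ℕ) := FractionRing (MvPolynomial (Var q) F)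

/-- The variables `h i`. -/
noncomputable def HH (F : Type*) [Field F] (q : ℕ) (i : Fin (q + 2)) : KK F q :=
  algebraMap (MvPolynomial (Var q) F) (KK F q) (MvPolynomial.X (Fin.castAdd (q + 1) i))

/-- The variables `Z j`. -/
noncomputable def ZZ (F : Type*) [Field F] (q : ℕ) (j : Fin (q + 1)) : KK F q :=
  algebraMap (MvPolynomial (Var q) F) (KK F q) (MvPolynomial.X (Fin.natAdd (q + 2) j))

/-- The inclusion of the constants. -/
noncomputable def iota (F : Type*) [Field F] (q : ℕ) : F →+* KK F q :=
  (algebraMap (MvPolynomial (Var q) F) (KK F q)).comp MvPolynomial.C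

theorem cast_ne (k : ℕ) (h : (k : F) ≠ 0) : (k : KK F q) ≠ 0 := by
  intro h0
  apply h
  apply (iota F q).injective
  rw [map_natCast, h0, map_zero]

theorem cast_ne_of_le (hF : ((q + 3).factorial : F) ≠ 0) (k : ℕ) (hk : 1 ≤ k) (hk' : k ≤ q + 3) :
    (k : KK F q) ≠ 0 := by
  refine cast_ne q k fun h2 => hF ?_
  obtain ⟨c, hc⟩ : k ∣ (q + 3).factorial := Nat.dvd_factorial (by omega) hk'
  rw [hc, Nat.cast_mul, h2, zero_mul]

/-- The border column. -/
noncomputable def yy (F : Type*) [Field F] (q : ℕ) : Fin (q + 3) → KK F q :=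
  shf (HH F q) (-(∑ i, HH F q i) / q)

/-- The coefficients of the correcting column. -/
noncomputable def ww (F : Type*) [Field F] (q : ℕ) (r : Fin (q + 3)) : KK F q :=
  (2 * yy F q r - ∑ r, yy F q r) / q

theorem yy_sum (hq0 : (q : KK F q) ≠ 0) : ∑ r, yy F q r = - (2 / q) * ∑ i, HH F q i := by
  rw [yy, shf_sum]
  push_cast
  field_simp
  ring

theorem two_yy (hq0 : (q : KK F q) ≠ 0) (i : Fin (q + 2)) :
    2 * yy F q i.succ - ∑ r, yy F q r = 2 * HH F q i := by
  rw [yy_sum q hq0, yy, shf_succ]
  field_simp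
  ring

theorem HH_sum_ne : ∑ i, HH F q i ≠ 0 := by
  intro h
  have h1 : algebraMap (MvPolynomial (Var q) F) (KK F q)
      (∑ i : Fin (q + 2), MvPolynomial.X (Fin.castAdd (q + 1) i)) = 0 := by
    rw [map_sum]
    exact h
  have h2 := (map_eq_zero_iff _ (IsFractionRing.injective (MvPolynomial (Var q) F) (KK F q))).1 h1
  have h3 := congrArg (MvPolynomial.aeval fun i : Var q =>
    if i = Fin.castAdd (q + 1) (0 : Fin (q + 2)) then (1 : F) else 0) h2
  rw [map_sum, map_zero, sum_eq_single 0] at h3
  · rw [MvPolynomial.aeval_X, if_pos rfl] at h3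
    exact one_ne_zero h3
  · intro i _ hi
    rw [MvPolynomial.aeval_X, if_neg]
    intro h4
    exact hi (Fin.castAdd_injective _ _ h4)
  · intro h4
    exact absurd (mem_univ _) h4

/-- The base point. -/
noncomputable def pt (F : Type*) [Field F] (q : ℕ) (p : Fin (q + 3) × Fin (q + 3)) : KK F q :=
  bord (yy F q) (vec (ZZ F q)) 0 p.1 p.2

theorem two_form (u : Fin (q + 1) × Fin (q + 1) → KK F q) (hF : ((q + 3).factorial : F) ≠ 0)
    (hq : 1 ≤ q)
    (h : ck (yy F q) (vec (ZZ F q)) 0 (mp u) 2 +
      ck (fun r => ww F q r * ∑ l, mp u r l) (vec (ZZ F q)) 0 (mp u) 1 = 0) : u = 0 := by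
  have hq0 : (q : KK F q) ≠ 0 := cast_ne_of_le q hF q hq (by omega)
  have hN : ((Fintype.card (Fin (q + 3)) : ℕ) : KK F q) - 3 = q := by
    rw [Fintype.card_fin]
    push_cast
    ring
  have h2 := ck_total (yy F q) 0 (mp u) (vec (ZZ F q)) (fun r => ww F q r * ∑ l, mp u r l)
    (shf_zero _ _) (emb_zero (blk u)) (emb_zero' (blk u)) (emb_col _ (blk_col u))
    (vec_zero _) (vec_sum _) (fun r => by
      rw [hN, ww]
      field_simp) (by
      have : ∑ l, mp u 0 l = 0 := sum_eq_zero fun l _ => emb_zero (blk u) l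
      simp only [this, mul_zero])
  rw [h, mul_zero] at h2
  have h3 : ((Fintype.card (Fin (q + 3))).factorial : KK F q) ≠ 0 := by
    rw [Fintype.card_fin]
    exact cast_ne q _ hF
  have h4 := (mul_eq_zero.1 h2.symm).resolve_left h3
  change ∑ r, ∑ j, (2 * yy F q r - ∑ r, yy F q r) * vec (ZZ F q) j * emb (blk u) r j ^ 2 = 0 at h4
  rw [emb_form (fun r => 2 * yy F q r - ∑ r, yy F q r)] at h4
  simp only [two_yy q hq0] at h4
  have h5 : ∑ r, ∑ j, HH F q r * ZZ F q j * blk u r j ^ 2 = 0 := by
    have h6 : (2 : KK F q) * ∑ r, ∑ j, HH F q r * ZZ F q j * blk u r j ^ 2 = 0 := by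
      rw [mul_sum, ← h4]
      refine sum_congr rfl fun r _ => ?_
      rw [mul_sum]
      exact sum_congr rfl fun j _ => by ring
    refine (mul_eq_zero.1 h6).resolve_left ?_
    exact_mod_cast cast_ne_of_le q hF 2 (by omega) (by omega)
  have h7 := aniso (F := F) (KK F q) (Fin.castAdd (q + 1)) (Fin.natAdd (q + 2))
    (Fin.castAdd_injective _ _) (Fin.natAdd_injective _ _) (fun i j hij => by
      have := congrArg Fin.val hij
      simp only [Fin.val_castAdd, Fin.val_natAdd] at this
      omega) (blk u) h5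
  funext p
  exact h7 p.1.succ p.2

/-- The distinguished direction. -/
noncomputable def edge (R : Type*) [CommRing R] (q : ℕ) : Fin (q + 3) × Fin (q + 3) → R :=
  fun p => if p = (0, Fin.succ 0) then 1 else 0

/-- The distinguished unit vector. -/
def uv (R : Type*) [CommRing R] (q : ℕ) (j : Fin (q + 3)) : R := if j = Fin.succ 0 then 1 else 0

theorem uv_sum (R : Type*) [CommRing R] : ∑ j, uv R q j = 1 := by
  rw [sum_eq_single (Fin.succ 0)]
  · rw [uv, if_pos rfl]
  · intro j _ hj
    rw [uv, if_neg hj]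
  · intro h
    exact absurd (mem_univ _) h

open Polynomial in
theorem bord_edge :
    (Matrix.of fun i j => (C (pt F q (i, j)) + X * C (edge (KK F q) q (i, j)) : (KK F q)[X])) =
      bord (fun r => C (yy F q r)) (fun r => C (vec (ZZ F q) r) + X * C (uv (KK F q) q r)) 0 := by
  ext1 i j
  simp only [Matrix.of_apply, bord, pt, edge, uv]
  by_cases hi : i = 0
  · subst hi
    rw [if_pos rfl, if_pos rfl]
    congr 3
    by_cases hj : j = Fin.succ 0
    · rw [if_pos hj, if_pos (by rw [hj])]
    · rw [if_neg hj, if_neg (fun h => hj (congrArg Prod.snd h))]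
  · rw [if_neg hi, if_neg hi, if_neg (fun h => hi (congrArg Prod.fst h)), map_zero, mul_zero,
      add_zero]
    split_ifs
    · rfl
    · rw [map_one]

open Polynomial in
theorem edge_perm (hF : ((q + 3).factorial : F) ≠ 0) (hq : 1 ≤ q) :
    ((Matrix.of fun i j =>
      (C (pt F q (i, j)) + X * C (edge (KK F q) q (i, j)) : (KK F q)[X])).permanent).coeff 0 = 0 ∧
    ((Matrix.of fun i j =>
      (C (pt F q (i, j)) + X * C (edge (KK F q) q (i, j)) : (KK F q)[X])).permanent).coeff 1 ≠ 0
    := by
  have h1 := perm_zero (fun r => C (yy F q r))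
    (fun r => C (vec (ZZ F q) r) + X * C (uv (KK F q) q r)) 0
    (by rw [yy, shf_zero, map_zero]) (by
      rw [vec_zero, uv, if_neg (Fin.succ_ne_zero _).symm, map_zero, mul_zero, add_zero])
  rw [bord_edge]
  set P := (bord (fun r => C (yy F q r))
    (fun r => C (vec (ZZ F q) r) + X * C (uv (KK F q) q r)) 0).permanent with hP
  have hq0 : (q : KK F q) ≠ 0 := cast_ne_of_le q hF q hq (by omega)
  have h3 : (((q + 3 : ℕ) : KK F q)) * ((q + 2 : ℕ) : KK F q) ≠ 0 :=
    mul_ne_zero (cast_ne_of_le q hF _ (by omega) (by omega))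
      (cast_ne_of_le q hF _ (by omega) (by omega))
  have h2 : C (((q + 3 : ℕ) : KK F q) * ((q + 2 : ℕ) : KK F q)) * P =
      C (((q + 3).factorial : KK F q) * ∑ r, yy F q r) * X := by
    rw [← map_sum, sum_add_distrib, ← map_sum, vec_sum, ← mul_sum, ← map_sum, uv_sum,
      Fintype.card_fin] at h1
    simp only [map_mul, map_natCast, map_zero, map_one] at h1 ⊢
    push_cast at h1 ⊢
    linear_combination h1
  refine ⟨?_, ?_⟩
  · have h4 := congrArg (fun p => coeff p 0) h2
    simp only [coeff_C_mul, coeff_X_zero, mul_zero] at h4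
    exact (mul_eq_zero.1 h4).resolve_left h3
  · intro h5
    have h4 := congrArg (fun p => coeff p 1) h2
    simp only [coeff_C_mul, coeff_X_one, mul_one, h5, mul_zero] at h4
    refine mul_ne_zero (cast_ne q _ hF) ?_ h4.symm
    rw [yy_sum q hq0]
    refine mul_ne_zero (neg_ne_zero.2 (div_ne_zero ?_ hq0)) (HH_sum_ne q)
    exact_mod_cast cast_ne_of_le q hF 2 (by omega) (by omega)

/-- The border version: a determinant over the power series which is a nonzero series times a
polynomial with special fibre the permanent. -/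
theorem main (hF : ((q + 3).factorial : F) ≠ 0) (hq : 1 ≤ q) (n : ℕ)
    (A : Matrix (Fin n) (Fin n) (MvPolynomial (Fin (q + 3) × Fin (q + 3)) (PowerSeries F)))
    (hA : ∀ i j, (A i j).totalDegree ≤ 1) (b : PowerSeries F) (hb : b ≠ 0)
    (g : MvPolynomial (Fin (q + 3) × Fin (q + 3)) (PowerSeries F))
    (hdet : A.det = MvPolynomial.C b * g)
    (hg : MvPolynomial.map (PowerSeries.constantCoeff (R := F)) g = permPoly (q + 3) F) :
    (q + 1) ^ 2 ≤ n := by
  by_contra hlt
  rw [not_le] at hlt
  set φ : PowerSeries F →+* PowerSeries (KK F q) := PowerSeries.map (iota F q) with hφ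
  set ψ : PowerSeries (KK F q) →+* KK F q := PowerSeries.constantCoeff with hψ
  have hcomp : ψ.comp φ = (iota F q).comp (PowerSeries.constantCoeff (R := F)) := by
    ext s
    rw [RingHom.comp_apply, RingHom.comp_apply, hψ, hφ,
      ← PowerSeries.coeff_zero_eq_constantCoeff_apply, PowerSeries.coeff_map,
      PowerSeries.coeff_zero_eq_constantCoeff_apply]
  -- the root
  set G : Polynomial (PowerSeries (KK F q)) := MvPolynomial.eval₂ (Polynomial.C.comp φ)
    (fun p => Polynomial.C (PowerSeries.C (pt F q p)) +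
      Polynomial.X * Polynomial.C (edge (PowerSeries (KK F q)) q p)) g with hG
  have hGmap : G.map ψ = (Matrix.of fun i j => (Polynomial.C (pt F q (i, j)) +
      Polynomial.X * Polynomial.C (edge (KK F q) q (i, j)))).permanent := by
    rw [hG, map_line φ ψ PowerSeries.constantCoeff (iota F q) hcomp, hg, eval_permPoly]
    congr 1
    ext1 i j
    rw [Matrix.of_apply, Matrix.of_apply, hψ, PowerSeries.constantCoeff_C]
    congr 3
    rw [edge, edge]
    split_ifs
    · rw [map_one]
    · rw [map_zero]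
  obtain ⟨hone0, hone1⟩ := edge_perm (F := F) q hF hq
  obtain ⟨w, hw, hroot⟩ := exists_root G
    (by
      rw [← hψ, ← Polynomial.coeff_map, hGmap]
      exact hone0)
    (by
      rw [← hψ, ← Polynomial.coeff_map, hGmap]
      exact hone1)
  set x₁ : Fin (q + 3) × Fin (q + 3) → PowerSeries (KK F q) :=
    fun p => PowerSeries.C (pt F q p) + w * edge (PowerSeries (KK F q)) q p with hx₁
  have hgx : MvPolynomial.eval₂ φ x₁ g = 0 := by
    rw [hG, eval_line_at] at hroot
    exact hroot
  have hAx : MvPolynomial.eval₂ φ x₁ A.det = 0 := by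
    rw [hdet, MvPolynomial.eval₂_mul, hgx, mul_zero]
  obtain ⟨u, ⟨a, ha⟩, hu⟩ := exists_unimodular φ A hA x₁ hAx
    (dir fun r => PowerSeries.C (ww F q r)) (by
      rw [Fintype.card_prod, Fintype.card_fin, ← pow_two]
      exact hlt)
  rw [hdet, MvPolynomial.eval₂_mul, MvPolynomial.eval₂_C, mul_eq_zero] at hu
  have hu' := hu.resolve_left (by
    intro h0
    rw [RingHom.comp_apply, Polynomial.C_eq_zero] at h0
    apply hb
    ext k
    have h1 := congrArg (PowerSeries.coeff k) h0
    rw [hφ, PowerSeries.coeff_map, map_zero] at h1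
    rw [map_zero]
    exact (map_eq_zero (iota F q)).1 h1)
  have hred := map_line φ ψ PowerSeries.constantCoeff (iota F q) hcomp x₁
    (dir (fun r => PowerSeries.C (ww F q r)) u) g
  rw [hu', Polynomial.map_zero, hg, eval_permPoly] at hred
  have hpt : ∀ p, ψ (x₁ p) = pt F q p := by
    intro p
    rw [hx₁, hψ]
    simp only [map_add, map_mul, hw, zero_mul, add_zero, PowerSeries.constantCoeff_C]
  have hdir : ∀ p, ψ (dir (fun r => PowerSeries.C (ww F q r)) u p) =
      dir (ww F q) (fun r => ψ (u r)) p := by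
    intro p
    rw [dir_map ψ]
    congr 1
  simp only [hpt, hdir] at hred
  have hcoef := congrArg (fun P => Polynomial.coeff P 2) hred
  have hcol := coeff_perm_col (yy F q) (vec (ZZ F q))
    (fun r => ww F q r * ∑ l, mp (fun r => ψ (u r)) r l) 0 (mp fun r => ψ (u r))
    (shf_zero _ _) (vec_zero _) (by
      have : ∑ l, mp (fun r => ψ (u r)) 0 l = 0 :=
        sum_eq_zero fun l _ => emb_zero (blk fun r => ψ (u r)) l
      simp only [this, mul_zero])
    (emb_zero (blk fun r => ψ (u r))) (emb_zero' (blk fun r => ψ (u r)))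
    (by rw [Fintype.card_fin]; omega)
  have hzero := two_form q (fun r => ψ (u r)) hF hq (by
    rw [← hcol]
    exact hcoef.symm)
  have hone := congrArg ψ ha
  rw [map_sum, map_one] at hone
  apply one_ne_zero (α := KK F q)
  rw [← hone]
  refine sum_eq_zero fun i _ => ?_
  have := congrFun hzero i
  rw [map_mul, this, Pi.zero_apply, mul_zero]

end Main

end Pool.Agent.L5helper11.DC
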