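import Mathlib
import Pool.Agent.L5helper11.DC.M

/-!
# Border determinantal complexity of the permanent: leading constant one

Let `F` be a field in which `m!` is not zero. If the permanent of size `m` is over `F` the
determinant of a matrix of size `n` of affine linear forms, or if it is the limit for `ε → 0` of
such determinants over the formal Laurent series in `ε` over `F`, then `n ≥ (m - 2) ^ 2`.
-/

namespace L5helper11.DC.BorderConstantOne

open Pool.Agent.L5helper11.DC

theorem eval_zero (m : ℕ) (hm : 1 ≤ m) (F : Type*) [Field F] :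
    MvPolynomial.aeval (fun _ => (0 : F)) (permPoly m F) = 0 := by
  obtain ⟨k, rfl⟩ : ∃ k, m = k + 1 := ⟨m - 1, by omega⟩
  have h := eval_permPoly (k + 1) (RingHom.id F) (fun _ => (0 : F))
  rw [MvPolynomial.aeval_def, show algebraMap F F = RingHom.id F from rfl, h, Matrix.permanent]
  refine Finset.sum_eq_zero fun σ _ => ?_
  exact Finset.prod_eq_zero (Finset.mem_univ 0) rfl

/-- The border version over the formal power series. -/
theorem power (F : Type*) [Field F] (m n : ℕ) (hm : (m.factorial : F) ≠ 0)
    (A : Matrix (Fin n) (Fin n) (MvPolynomial (Fin m × Fin m) (PowerSeries F)))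
    (hA : ∀ i j, (A i j).totalDegree ≤ 1) (b : PowerSeries F) (hb : b ≠ 0)
    (g : MvPolynomial (Fin m × Fin m) (PowerSeries F))
    (hdet : A.det = MvPolynomial.C b * g)
    (hg : MvPolynomial.map (PowerSeries.constantCoeff (R := F)) g = permPoly m F) :
    (m - 2) ^ 2 ≤ n := by
  rcases le_or_gt m 2 with h2 | h2
  · have : m - 2 = 0 := by omega
    rw [this]
    exact Nat.zero_le _
  obtain ⟨q, rfl⟩ : ∃ q, m = q + 3 := ⟨m - 3, by omega⟩
  have h1 : q + 3 - 2 = q + 1 := by omega
  rw [h1]
  rcases Nat.eq_zero_or_pos q with h0 | h0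
  · subst h0
    rcases Nat.eq_zero_or_pos n with hn | hn
    · exfalso
      subst hn
      rw [Matrix.det_fin_zero] at hdet
      have h3 := congrArg (fun p => MvPolynomial.aeval (fun _ => (0 : F))
        (MvPolynomial.map (PowerSeries.constantCoeff (R := F)) p)) hdet
      simp only [map_one, map_mul, hg] at h3
      rw [eval_zero 3 (by norm_num) F, mul_zero] at h3
      exact one_ne_zero h3
    · norm_num
      omega
  · exact main q hm h0 n A hA b hb g hdet hg

theorem degree_map {σ S T : Type*} [CommSemiring S] [CommSemiring T] (f : S →+* T)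
    (p : MvPolynomial σ S) : (MvPolynomial.map f p).totalDegree ≤ p.totalDegree :=
  Finset.sup_mono (MvPolynomial.support_map_subset f p)

theorem degree_affine {σ S : Type*} [Fintype σ] [CommRing S] (a : S) (c : σ → S) :
    (MvPolynomial.C a + ∑ l, MvPolynomial.C (c l) * MvPolynomial.X l).totalDegree ≤ 1 := by
  refine (MvPolynomial.totalDegree_add _ _).trans (max_le ?_ ?_)
  · rw [MvPolynomial.totalDegree_C]
    exact Nat.zero_le _
  · refine MvPolynomial.totalDegree_finsetSum_le fun l _ => ?_
    refine (MvPolynomial.totalDegree_mul _ _).trans ?_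
    rw [MvPolynomial.totalDegree_C, zero_add]
    have h := MvPolynomial.totalDegree_monomial_le (Finsupp.single l 1) (1 : S)
    rw [show (MvPolynomial.X l : MvPolynomial σ S) =
      MvPolynomial.monomial (Finsupp.single l 1) 1 from rfl]
    simpa using h

theorem exact (F : Type*) [Field F] (m n : ℕ) (hm : (m.factorial : F) ≠ 0)
    (A : Matrix (Fin n) (Fin n) (MvPolynomial (Fin m × Fin m) F))
    (hA : ∀ i j, (A i j).totalDegree ≤ 1) (hdet : A.det = permPoly m F) : (m - 2) ^ 2 ≤ n := by
  have h1 := RingHom.map_det (MvPolynomial.map (σ := Fin m × Fin m) (PowerSeries.C (R := F))) A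
  rw [RingHom.mapMatrix_apply, hdet] at h1
  refine power F m n hm (A.map (MvPolynomial.map (PowerSeries.C (R := F))))
    (fun i j => ?_) 1 one_ne_zero (MvPolynomial.map (PowerSeries.C (R := F)) (permPoly m F)) ?_ ?_
  · rw [Matrix.map_apply]
    exact (degree_map _ _).trans (hA i j)
  · rw [map_one, one_mul]
    exact h1.symm
  · rw [MvPolynomial.map_map]
    have : (PowerSeries.constantCoeff (R := F)).comp PowerSeries.C = RingHom.id F := by
      ext a
      simp
    rw [this, MvPolynomial.map_id]

/-- The border version over a field of fractions of the formal power series. -/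
theorem frac (F : Type*) [Field F] (K : Type*) [Field K] [Algebra (PowerSeries F) K]
    [IsFractionRing (PowerSeries F) K] (m n : ℕ) (hm : (m.factorial : F) ≠ 0)
    (A : Matrix (Fin n) (Fin n) (MvPolynomial (Fin m × Fin m) K))
    (hA : ∀ i j, (A i j).totalDegree ≤ 1)
    (g : MvPolynomial (Fin m × Fin m) (PowerSeries F))
    (hdet : A.det = MvPolynomial.map (algebraMap (PowerSeries F) K) g)
    (hg : MvPolynomial.map (PowerSeries.constantCoeff (R := F)) g = permPoly m F) :
    (m - 2) ^ 2 ≤ n := by
  classical
  obtain ⟨b, hb⟩ := IsLocalization.exist_integer_multiples_of_finite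
    (nonZeroDivisors (PowerSeries F)) (fun t : Fin n × Fin n × Option (Fin m × Fin m) =>
      t.2.2.elim (MvPolynomial.coeff 0 (A t.1 t.2.1))
        (fun l => MvPolynomial.coeff (Finsupp.single l 1) (A t.1 t.2.1)))
  choose r hr using hb
  have hinj := IsFractionRing.injective (PowerSeries F) K
  set f := algebraMap (PowerSeries F) K with hf
  set A' : Matrix (Fin n) (Fin n) (MvPolynomial (Fin m × Fin m) (PowerSeries F)) :=
    Matrix.of fun i j => MvPolynomial.C (r (i, j, none)) +
      ∑ l, MvPolynomial.C (r (i, j, some l)) * MvPolynomial.X l with hA'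
  have hmap : A'.map (MvPolynomial.map f) =
      (MvPolynomial.C (f b) : MvPolynomial (Fin m × Fin m) K) • A := by
    ext1 i j
    rw [Matrix.map_apply, hA', Matrix.of_apply, Matrix.smul_apply, smul_eq_mul, map_add, map_sum,
      MvPolynomial.map_C]
    conv_rhs => rw [affine_eq (A i j) (hA i j)]
    have h0 := hr (i, j, none)
    rw [Algebra.smul_def] at h0
    simp only [Option.elim_none] at h0
    rw [← hf] at h0
    rw [h0, map_mul, mul_add, Finset.mul_sum]
    congr 1
    refine Finset.sum_congr rfl fun l _ => ?_
    have h1 := hr (i, j, some l)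
    rw [Algebra.smul_def] at h1
    simp only [Option.elim_some] at h1
    rw [← hf] at h1
    rw [map_mul, MvPolynomial.map_C, MvPolynomial.map_X, h1, map_mul, mul_assoc]
  refine power F m n hm A' (fun i j => degree_affine _ _) ((b : PowerSeries F) ^ n)
    (pow_ne_zero _ (nonZeroDivisors.ne_zero b.2)) g ?_ hg
  apply MvPolynomial.map_injective f hinj
  have h2 := RingHom.map_det (MvPolynomial.map (σ := Fin m × Fin m) f) A'
  rw [RingHom.mapMatrix_apply, hmap, Matrix.det_smul, Fintype.card_fin, hdet] at h2
  rw [h2, map_mul, MvPolynomial.map_C, map_pow, map_pow]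

/-- First part: determinants. Second part: border version, over the formal Laurent series. -/
theorem result :
    (∀ (F : Type) [Field F] (m n : ℕ), (m.factorial : F) ≠ 0 →
      ∀ A : Matrix (Fin n) (Fin n) (MvPolynomial (Fin m × Fin m) F),
      (∀ i j, (A i j).totalDegree ≤ 1) →
      A.det = (Matrix.of (fun i j : Fin m =>
        (MvPolynomial.X (i, j) : MvPolynomial (Fin m × Fin m) F))).permanent →
      (m - 2) ^ 2 ≤ n) ∧
    (∀ (F : Type) [Field F] (m n : ℕ), (m.factorial : F) ≠ 0 →
      ∀ A : Matrix (Fin n) (Fin n) (MvPolynomial (Fin m × Fin m) (LaurentSeries F)),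
      (∀ i j, (A i j).totalDegree ≤ 1) →
      ∀ g : MvPolynomial (Fin m × Fin m) (PowerSeries F),
      A.det = MvPolynomial.map (algebraMap (PowerSeries F) (LaurentSeries F)) g →
      MvPolynomial.map (PowerSeries.constantCoeff (R := F)) g = (Matrix.of (fun i j : Fin m =>
        (MvPolynomial.X (i, j) : MvPolynomial (Fin m × Fin m) F))).permanent →
      (m - 2) ^ 2 ≤ n) :=
  ⟨fun F _ m n hm A hA hdet => exact F m n hm A hA hdet,
    fun F _ m n hm A hA g hdet hg => frac F (LaurentSeries F) m n hm A hA g hdet hg⟩

end L5helper11.DC.BorderConstantOne
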